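import Pool.Agent.H.MP_bf2d93_gt.A
import Pool.Agent.H.MP_bf2d93_gt.C

set_option autoImplicit false
set_option maxHeartbeats 400000

namespace Pool.Agent.Results.MP_bf2d93_gt.Full

open Pool.Agent.H.MP_bf2d93_gt

/-- Rate functions on `{1, 2, 3, …}` (the value at `0` plays no role). -/
structure Rate (f : ℕ → ℝ) : Prop where
  pos : ∀ n, 1 ≤ n → 0 < f n
  mono : ∀ a b, 1 ≤ a → a ≤ b → f a ≤ f b
  unb : ∀ C : ℝ, ∃ n, 1 ≤ n ∧ C < f n
  scale : ∀ M, 1 ≤ M → ∃ c C : ℝ, 0 < c ∧ c ≤ C ∧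
    ∃ N₁, ∀ N, N₁ ≤ N → c * f N ≤ f (M * N) ∧ f (M * N) ≤ C * f N

/-- Euclidean `ℝ^k` contains an `f`-distorted sequence indexed by `I`. -/
def Realizable (k : ℕ) (I : Set ℤ) (f : ℕ → ℝ) : Prop :=
  ∃ (p : I → EuclideanSpace ℝ (Fin k)) (A B : ℝ) (N₀ : ℕ), 0 < A ∧ 0 < B ∧ 1 ≤ N₀ ∧
    ∀ m n : I, N₀ ≤ ((n : ℤ) - m).natAbs →
      A * f ((n : ℤ) - m).natAbs ≤ dist (p n) (p m) ∧
        dist (p n) (p m) ≤ B * f ((n : ℤ) - m).natAbs

lemma e1 {k : ℕ} (hk : 1 ≤ k) (x y : EuclideanSpace ℝ (Fin k)) :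
    dist x.ofLp y.ofLp ≤ dist x y ∧ dist x y ≤ k * dist x.ofLp y.ofLp := by
  refine ⟨(dist_pi_le_iff dist_nonneg).2 fun c => PiLp.dist_apply_le x y c, ?_⟩
  have k1 : (1 : ℝ) ≤ k := by exact_mod_cast hk
  rw [EuclideanSpace.dist_eq, Real.sqrt_le_left (by positivity)]
  have := Finset.sum_le_card_nsmul Finset.univ (fun c => dist (x c) (y c) ^ 2)
    (dist x.ofLp y.ofLp ^ 2) fun c _ => pow_le_pow_left₀ dist_nonneg (dist_le_pi_dist _ _ c) 2
  simp only [Finset.card_univ, Fintype.card_fin, nsmul_eq_mul] at this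
  nlinarith [mul_le_mul_of_nonneg_right k1
    (by positivity : 0 ≤ (k : ℝ) * dist x.ofLp y.ofLp ^ 2)]

lemma params {k : ℕ} (hk : 1 ≤ k) {α : ℝ} (h : 1 / (k : ℝ) < α ∨ α = 1) :
    ∃ L ρ : ℕ, 3 ≤ ρ ∧ ρ ≤ L ∧ (ρ : ℝ) ≤ (L : ℝ) ^ α ∧ ∃ g : ℕ → Fin k → ℤ, Gen L ρ g := by
  rcases h with h | rfl
  swap
  · exact ⟨3, 3, le_rfl, le_rfl, by simp, _, gen_line hk 3⟩
  have k0 : (0 : ℝ) < k := by exact_mod_cast hk
  have α0 : 0 < α := lt_trans (by positivity) h
  rw [div_lt_iff₀ k0] at h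
  obtain ⟨t, ht⟩ := Filter.eventually_atTop.1 (((tendsto_rpow_atTop (sub_pos.2 h)).comp
    tendsto_natCast_atTop_atTop).eventually_ge_atTop 4)
  have a := ht (2 * t + 1) (by omega)
  obtain ⟨k, rfl⟩ : ∃ j, k = j + 1 := ⟨k - 1, by omega⟩
  obtain ⟨w, hw⟩ := box_ex (odd_two_mul_add_one t) k
  have s1 : 1 ≤ 2 * t + 1 := by omega
  generalize 2 * t + 1 = s at *
  have s1' : (1 : ℝ) ≤ s := by exact_mod_cast s1
  refine ⟨_, _, by omega, by have := Nat.le_self_pow (n := k + 1) (by omega) s; omega, ?_, gen_of hk hw⟩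
  have b : ((s : ℝ) ^ (k + 1)) ^ α ≤ ((2 * s ^ (k + 1) + 2 : ℕ) : ℝ) ^ α :=
    Real.rpow_le_rpow (by positivity) (by push_cast; nlinarith [pow_pos (one_pos.trans_le s1') (k + 1)])
      α0.le
  rw [← Real.rpow_natCast, ← Real.rpow_mul (by positivity), mul_comm] at b
  simp only [Function.comp, Real.rpow_sub_one (by positivity : (s : ℝ) ≠ 0)] at a
  rw [le_div_iff₀ (by positivity)] at a
  push_cast at a b ⊢
  linarith

theorem result (k : ℕ) (hk : 1 ≤ k) (I : Set ℤ) (hI : I = Set.univ ∨ I = Set.Ici 1) (f : ℕ → ℝ)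
    (hf : Rate f) :
    Realizable k I f ↔ ∃ (α c C : ℝ) (m₀ : ℕ), 0 < c ∧ 1 ≤ m₀ ∧ (1 / (k : ℝ) < α ∨ α = 1) ∧
      ∀ m N : ℕ, m₀ ≤ m → m ≤ N →
        c * ((N : ℝ) / m) ^ α * f m ≤ f N ∧ f N ≤ C * ((N : ℝ) / m) * f m := by
  have k1 : (1 : ℝ) ≤ k := by exact_mod_cast hk
  constructor
  · rintro ⟨p, A, B, N0, A0, B0, N1, hp⟩
    have mem : ∀ i : ℕ, (1 + i : ℤ) ∈ I := fun i => by rcases hI with rfl | rfl <;> simp
    let P : ℕ → EuclideanSpace ℝ (Fin k) := fun i => p ⟨1 + i, mem i⟩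
    have hP : ∀ i j d : ℕ, N0 ≤ d → j = i + d →
        A * f d ≤ dist (P j) (P i) ∧ dist (P j) (P i) ≤ B * f d := fun i j d a b => by
      have e : ((1 + j : ℤ) - (1 + i)).natAbs = d := by omega
      have := hp ⟨_, mem i⟩ ⟨_, mem j⟩ (by simp only [e, a])
      simpa only [e] using this
    obtain ⟨α, c, c0, α0, hα, H⟩ := nec hk (A := A / k) (B := B + A / k) (by positivity)
      (by linarith)
    refine ⟨α, c / 2 ^ α, 2 * B / A, N0, by positivity, N1, hα, fun m N hm hN => ?_⟩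
    have m1 := N1.trans hm
    have fm := hf.pos m m1
    have m0 : (0 : ℝ) < m := by exact_mod_cast m1
    have T1 : 1 ≤ N / m := (Nat.le_div_iff_mul_le m1).2 (by omega)
    have T2 : (N : ℝ) / m ≤ 2 * (N / m : ℕ) := by
      rw [div_le_iff₀ m0]
      have := Nat.lt_mul_div_succ N m1
      exact_mod_cast (by nlinarith : N ≤ 2 * (N / m) * m)
    constructor
    · have := H (fun i => (f m)⁻¹ • (P (m * i)).ofLp) (fun n => f (m * n) / f m)
        (by simp [fm.ne']) (fun a b a1 ab => div_le_div_of_nonneg_right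
          (hf.mono _ _ (Nat.mul_pos m1 a1) (Nat.mul_le_mul_left _ ab)) fm.le) (fun C => by
          obtain ⟨n, n1, hn⟩ := hf.unb (C * f m)
          exact ⟨n, n1, (lt_div_iff₀ fm).2 (hn.trans_le (hf.mono _ _ n1 (Nat.le_mul_of_pos_left _ m1)))⟩)
        (fun i j ij => by
          have a := hP (m * i) (m * j) (m * (j - i)) (hm.trans (Nat.le_mul_of_pos_right _ (by omega)))
            (by rw [← mul_add, Nat.add_sub_cancel' ij.le])
          have b := e1 hk (P (m * j)) (P (m * i))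
          have := hf.pos (m * (j - i)) (Nat.mul_pos m1 (by omega))
          rw [dist_smul₀, dist_comm, Real.norm_of_nonneg (by positivity), inv_mul_eq_div,
            ← mul_div_assoc, ← mul_div_assoc]
          constructor <;> refine div_le_div_of_nonneg_right ?_ fm.le
          · rw [div_mul_eq_mul_div, div_le_iff₀ (by positivity)]; linarith [a.1, b.2]
          · have : 0 ≤ A / k * f (m * (j - i)) := by positivity
            linarith [a.2, b.1]) (N / m) T1
      have b := Real.rpow_le_rpow (by positivity) T2 α0.le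
      rw [Real.mul_rpow (by positivity) (by positivity)] at b
      rw [le_div_iff₀ fm] at this
      refine le_trans (mul_le_mul_of_nonneg_right ?_ fm.le)
        (this.trans (hf.mono _ _ (Nat.mul_pos m1 T1) (Nat.mul_div_le N m)))
      rw [div_mul_eq_mul_div, div_le_iff₀ (by positivity)]
      nlinarith
    · have tr : ∀ t : ℕ, dist (P (m * t)) (P 0) ≤ t * (B * f m) := fun t => by
        induction t with
        | zero => simp
        | succ t ih =>
          have := dist_triangle (P (m * (t + 1))) (P (m * t)) (P 0)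
          push_cast
          linarith [(hP (m * t) (m * (t + 1)) m hm (by ring)).2]
      have a := (hP 0 _ (m * (N / m + 1)) (hm.trans (Nat.le_mul_of_pos_right _ (by omega)))
        (zero_add _).symm).1.trans (tr _)
      have b := hf.mono N _ (by omega) (Nat.lt_mul_div_succ N m1).le
      have d : ((N / m : ℕ) : ℝ) ≤ N / m := Nat.cast_div_le
      have T1' : (1 : ℝ) ≤ (N / m : ℕ) := by exact_mod_cast T1
      rw [div_mul_eq_mul_div, div_mul_eq_mul_div, le_div_iff₀ A0]
      push_cast at a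
      nlinarith [mul_pos B0 fm]
  · rintro ⟨α, c, C, m0, c0, m1, hα, H⟩
    obtain ⟨L, ρ, ρ3, ρL, ρα, g, hg⟩ := params hk hα
    have L0 : (0 : ℝ) < L := by exact_mod_cast (by omega : 0 < L)
    have Lp : ∀ j, 1 ≤ L ^ j := fun j => Nat.one_le_pow _ _ (by omega)
    have φ0 : ∀ j, 0 < f (m0 * L ^ j) := fun j => hf.pos _ (Nat.mul_pos m1 (Lp j))
    have hφ : ∀ i j, c * ρ ^ j * f (m0 * L ^ i) ≤ f (m0 * L ^ (i + j)) ∧
        f (m0 * L ^ (i + j)) ≤ C * L ^ j * f (m0 * L ^ i) := fun i j => by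
      have := H (m0 * L ^ i) (m0 * L ^ (i + j)) (Nat.le_mul_of_pos_right _ (Lp i))
        (Nat.mul_le_mul_left _ (Nat.pow_le_pow_right (by omega) (by omega)))
      have e : ((m0 * L ^ (i + j) : ℕ) : ℝ) / (m0 * L ^ i : ℕ) = L ^ j := by
        have : (m0 : ℝ) ≠ 0 := by positivity
        push_cast; field_simp; ring
      rw [e] at this
      refine ⟨le_trans (mul_le_mul_of_nonneg_right (mul_le_mul_of_nonneg_left ?_ c0.le) (φ0 i).le)
        this.1, this.2⟩
      rw [← Real.rpow_natCast (L : ℝ), ← Real.rpow_mul L0.le, mul_comm, Real.rpow_mul L0.le,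
        Real.rpow_natCast]
      exact pow_le_pow_left₀ (by positivity) ρα j
    have C0 : 0 < C := by have := (hφ 0 0).2; have := φ0 0; simp at *; nlinarith
    obtain ⟨r, hr, a, b, a0, b0, hP⟩ := track φ0 c0 (by omega) ρL hφ
    choose G hG using fun i => show ∃ G : ℕ → Fin k → ℤ, Gen L (r i) G by
      rcases hr i with e | e <;> rw [e]
      exacts [⟨_, hg⟩, ⟨_, gen_line hk L⟩]
    obtain ⟨p, hp⟩ := curve hk hG (by omega) fun i => by rcases hr i with e | e <;> omega
    let Q : ℤ → EuclideanSpace ℝ (Fin k) := fun n => WithLp.toLp 2 fun c => (p n c : ℝ)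
    have key : ∀ (n m : ℤ) (D : ℕ), m = n + D → m0 + L ^ 2 ≤ D →
        a / (C * L ^ 3) * f D ≤ dist (Q n) (Q m) ∧
          dist (Q n) (Q m) ≤ k * (2 * b * (C * (m0 * L))) * f D := fun n m D e hD => by
      have D0 : D ≠ 0 := by omega
      obtain ⟨j, hj⟩ := Nat.exists_eq_add_of_le' (Nat.le_log_of_pow_le (by omega : 1 < L)
        (by omega : L ^ 2 ≤ D))
      have d1 := Nat.pow_log_le_self L D0
      have d2 := (Nat.lt_pow_succ_log_self (by omega : 1 < L) D).le
      rw [hj] at d1 d2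
      have d3 := d2.trans (Nat.le_mul_of_pos_left _ m1)
      have fD := hf.pos D (by omega)
      constructor
      · obtain ⟨x, hx⟩ := (hp j n m (by omega)).1 (by
          have : 2 * L ^ (j + 1) ≤ L ^ (j + 2) := by rw [pow_succ L (j + 1)]; nlinarith [Lp (j + 1)]
          rw [e]; exact_mod_cast Int.add_le_add_left (by exact_mod_cast this.trans d1) n)
        have h1 : (PP r j : ℝ) ≤ dist (Q n) (Q m) := le_trans (by
          rw [Real.dist_eq]; simp only [Q]; exact_mod_cast hx) (PiLp.dist_apply_le (Q n) (Q m) x)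
        have h2 := (hf.mono D _ (by omega) d3).trans (hφ j 3).2
        rw [div_mul_eq_mul_div, div_le_iff₀ (by positivity)]
        nlinarith [mul_le_mul_of_nonneg_right ((hP j).1.trans h1) (by positivity : 0 ≤ C * L ^ 3)]
      · have h1 : dist (Q n).ofLp (Q m).ofLp ≤ 2 * PP r (j + 3) :=
          (dist_pi_le_iff (by have := (hP (j + 3)).1; have := φ0 (j + 3); nlinarith)).2 fun x => by
            rw [Real.dist_eq]
            simp only [Q]
            exact_mod_cast (hp (j + 3) n m (by omega)).2 (by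
              rw [e]; exact Int.add_le_add_left (by exact_mod_cast d2) n) x
        have h2 := (H D _ (by omega) d3).2
        have h3 : ((m0 * L ^ (j + 2).succ : ℕ) : ℝ) / D ≤ m0 * L := by
          rw [div_le_iff₀ (by positivity)]
          exact_mod_cast (by rw [pow_succ', mul_assoc]; gcongr : m0 * L ^ (j + 2).succ ≤ m0 * L * D)
        have h4 := h2.trans (mul_le_mul_of_nonneg_right (mul_le_mul_of_nonneg_left h3 C0.le) fD.le)
        refine (e1 hk _ _).2.trans ?_
        rw [mul_assoc]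
        refine mul_le_mul_of_nonneg_left (h1.trans ?_) (by positivity)
        nlinarith [(hP (j + 3)).2, mul_le_mul_of_nonneg_left h4 b0.le]
    refine ⟨fun n => Q n, a / (C * L ^ 3), k * (2 * b * (C * (m0 * L))), m0 + L ^ 2, by positivity,
      by positivity, by omega, fun m n h => ?_⟩
    rcases le_total (m : ℤ) n with o | o
    · rw [dist_comm]; exact key m n _ (by omega) h
    · exact key n m _ (by omega) h

end Pool.Agent.Results.MP_bf2d93_gt.Full
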